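import Pool.Agent.Q62.UM.Stm2

/-! Project UM, job D1: sums and products of algebraic functions (dimension count). -/

set_option autoImplicit false

open Polynomial
open scoped Polynomial

namespace Pool.Agent.Q111.UM

open Pool.Agent.Q62.UM

section Count

variable {K R : Type*} [Field K] [CommRing R] [Algebra K R] (r f g : R) (d₁ d₂ : ℕ)

open Classical in
/-- the generators -/
noncomputable def gens (k : ℕ) : Finset R :=
  (Finset.range (k + 1) ×ˢ (Finset.range d₁ ×ˢ Finset.range d₂)).image (fun z => r ^ z.1 * (f ^ z.2.1 * g ^ z.2.2))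

/-- the spans -/
noncomputable def MM (K : Type*) {R : Type*} [Field K] [CommRing R] [Algebra K R] (r f g : R) (d₁ d₂ k : ℕ) :
    Submodule K R := Submodule.span K (gens r f g d₁ d₂ k : Set R)

variable {r f g d₁ d₂}

theorem mem_MM {k b i j : ℕ} (hb : b ≤ k) (hi : i < d₁) (hj : j < d₂) :
    r ^ b * (f ^ i * g ^ j) ∈ MM K r f g d₁ d₂ k := by
  classical
  refine Submodule.subset_span ?_
  unfold gens
  rw [Finset.mem_coe, Finset.mem_image]
  refine ⟨(b, i, j), ?_, rfl⟩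
  simp only [Finset.mem_product, Finset.mem_range]
  omega

theorem MM_mul {k k' : ℕ} {y : R}
    (h : ∀ b i j : ℕ, b ≤ k → i < d₁ → j < d₂ → y * (r ^ b * (f ^ i * g ^ j)) ∈ MM K r f g d₁ d₂ k')
    {x : R} (hx : x ∈ MM K r f g d₁ d₂ k) : y * x ∈ MM K r f g d₁ d₂ k' := by
  classical
  have h1 : MM K r f g d₁ d₂ k ≤ (MM K r f g d₁ d₂ k').comap (LinearMap.mulLeft K y) := by
    unfold MM
    rw [Submodule.span_le]
    intro z hz
    unfold gens at hz
    rw [Finset.mem_coe, Finset.mem_image] at hz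
    obtain ⟨⟨b, i, j⟩, hz1, rfl⟩ := hz
    simp only [Finset.mem_product, Finset.mem_range] at hz1
    exact h b i j (by omega) hz1.2.1 hz1.2.2
  exact h1 hx

theorem MM_mono {k k' : ℕ} (h : k ≤ k') : MM K r f g d₁ d₂ k ≤ MM K r f g d₁ d₂ k' := by
  intro x hx
  have := MM_mul (k' := k') (y := 1) (fun b i j hb hi hj => by
    rw [one_mul]; exact mem_MM (hb.trans h) hi hj) hx
  rwa [one_mul] at this

theorem MM_pow {D : ℕ} {y : R} (h : ∀ k x, x ∈ MM K r f g d₁ d₂ k → y * x ∈ MM K r f g d₁ d₂ (k + D)) (n : ℕ) :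
    ∀ k x, x ∈ MM K r f g d₁ d₂ k → y ^ n * x ∈ MM K r f g d₁ d₂ (k + n * D) := by
  induction n with
  | zero =>
    intro k x hx
    simpa using hx
  | succ n ih =>
    intro k x hx
    have h1 := ih _ _ (h k x hx)
    have e1 : y ^ (n + 1) * x = y ^ n * (y * x) := by ring
    have e2 : k + (n + 1) * D = k + D + n * D := by ring
    rw [e1, e2]
    exact h1

theorem MM_r (k : ℕ) (x : R) (hx : x ∈ MM K r f g d₁ d₂ k) : r * x ∈ MM K r f g d₁ d₂ (k + 1) := by
  refine MM_mul (fun b i j hb hi hj => ?_) hx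
  have e1 : r * (r ^ b * (f ^ i * g ^ j)) = r ^ (b + 1) * (f ^ i * g ^ j) := by ring
  rw [e1]
  exact mem_MM (by omega) hi hj

theorem MM_rn (n k : ℕ) (x : R) (hx : x ∈ MM K r f g d₁ d₂ k) : r ^ n * x ∈ MM K r f g d₁ d₂ (k + n) := by
  have := MM_pow (D := 1) MM_r n k x hx
  rwa [mul_one] at this

theorem MM_poly {D : ℕ} {p : K[X]} (hp : p.natDegree ≤ D) (k : ℕ) (x : R) (hx : x ∈ MM K r f g d₁ d₂ k) :
    aeval r p * x ∈ MM K r f g d₁ d₂ (k + D) := by
  rw [aeval_eq_sum_range' (Nat.lt_succ_of_le hp), Finset.sum_mul]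
  refine Submodule.sum_mem _ fun i hi => ?_
  rw [smul_mul_assoc]
  refine Submodule.smul_mem _ _ ?_
  have h1 := Finset.mem_range.1 hi
  exact MM_mono (by omega) (MM_rn i k x hx)

theorem MM_f {D : ℕ} {A : K[X][X]} (hd : A.natDegree = d₁) (hA : ∀ i, (A.coeff i).natDegree ≤ D)
    (hf : ∑ i ∈ Finset.range (A.natDegree + 1), aeval r (A.coeff i) * f ^ i = 0) (k : ℕ) (x : R)
    (hx : x ∈ MM K r f g d₁ d₂ k) : (aeval r A.leadingCoeff * f) * x ∈ MM K r f g d₁ d₂ (k + D) := by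
  refine MM_mul (fun b i j hb hi hj => ?_) hx
  rcases Nat.lt_or_ge (i + 1) d₁ with h | h
  · have e1 : aeval r A.leadingCoeff * f * (r ^ b * (f ^ i * g ^ j)) =
        aeval r A.leadingCoeff * (r ^ b * (f ^ (i + 1) * g ^ j)) := by ring
    rw [e1]
    exact MM_mono (by omega) (MM_poly (hA _) k _ (mem_MM hb h hj))
  · have hi1 : i + 1 = d₁ := by omega
    rw [Finset.sum_range_succ, hd] at hf
    have e0 : aeval r A.leadingCoeff * f ^ d₁ = -∑ l ∈ Finset.range d₁, aeval r (A.coeff l) * f ^ l := by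
      rw [leadingCoeff, hd]
      linear_combination hf
    have e1 : aeval r A.leadingCoeff * f * (r ^ b * (f ^ i * g ^ j)) =
        (aeval r A.leadingCoeff * f ^ d₁) * (r ^ b * g ^ j) := by
      rw [← hi1]; ring
    rw [e1, e0, neg_mul, Finset.sum_mul]
    refine Submodule.neg_mem _ (Submodule.sum_mem _ fun l hl => ?_)
    have e2 : aeval r (A.coeff l) * f ^ l * (r ^ b * g ^ j) = aeval r (A.coeff l) * (r ^ b * (f ^ l * g ^ j)) := by ring
    rw [e2]
    exact MM_poly (hA _) k _ (mem_MM hb (Finset.mem_range.1 hl) hj)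

theorem MM_g {D : ℕ} {A : K[X][X]} (hd : A.natDegree = d₂) (hA : ∀ i, (A.coeff i).natDegree ≤ D)
    (hf : ∑ i ∈ Finset.range (A.natDegree + 1), aeval r (A.coeff i) * g ^ i = 0) (k : ℕ) (x : R)
    (hx : x ∈ MM K r f g d₁ d₂ k) : (aeval r A.leadingCoeff * g) * x ∈ MM K r f g d₁ d₂ (k + D) := by
  refine MM_mul (fun b i j hb hi hj => ?_) hx
  rcases Nat.lt_or_ge (j + 1) d₂ with h | h
  · have e1 : aeval r A.leadingCoeff * g * (r ^ b * (f ^ i * g ^ j)) =
        aeval r A.leadingCoeff * (r ^ b * (f ^ i * g ^ (j + 1))) := by ring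
    rw [e1]
    exact MM_mono (by omega) (MM_poly (hA _) k _ (mem_MM hb hi h))
  · have hi1 : j + 1 = d₂ := by omega
    rw [Finset.sum_range_succ, hd] at hf
    have e0 : aeval r A.leadingCoeff * g ^ d₂ = -∑ l ∈ Finset.range d₂, aeval r (A.coeff l) * g ^ l := by
      rw [leadingCoeff, hd]
      linear_combination hf
    have e1 : aeval r A.leadingCoeff * g * (r ^ b * (f ^ i * g ^ j)) =
        (aeval r A.leadingCoeff * g ^ d₂) * (r ^ b * f ^ i) := by
      rw [← hi1]; ring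
    rw [e1, e0, neg_mul, Finset.sum_mul]
    refine Submodule.neg_mem _ (Submodule.sum_mem _ fun l hl => ?_)
    have e2 : aeval r (A.coeff l) * g ^ l * (r ^ b * f ^ i) = aeval r (A.coeff l) * (r ^ b * (f ^ i * g ^ l)) := by ring
    rw [e2]
    exact MM_poly (hA _) k _ (mem_MM hb hi (Finset.mem_range.1 hl))

end Count

/-- the dimension count -/
theorem count {K R : Type*} [Field K] [CommRing R] [Algebra K R] {r f g Ψ : R} {A B : K[X][X]} {D : ℕ}
    (hD : 1 ≤ D) (hA1 : 1 ≤ A.natDegree) (hAD : A.natDegree ≤ D) (hA : ∀ i, (A.coeff i).natDegree ≤ D)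
    (hB1 : 1 ≤ B.natDegree) (hBD : B.natDegree ≤ D) (hB : ∀ i, (B.coeff i).natDegree ≤ D)
    (hf : ∑ i ∈ Finset.range (A.natDegree + 1), aeval r (A.coeff i) * f ^ i = 0)
    (hg : ∑ i ∈ Finset.range (B.natDegree + 1), aeval r (B.coeff i) * g ^ i = 0) (hΨ : Ψ = f + g ∨ Ψ = f * g) :
    ∃ P : K[X][X], P ≠ 0 ∧ P.natDegree ≤ 3 * D ^ 3 ∧ (∀ i, (P.coeff i).natDegree ≤ 3 * D ^ 3) ∧
      aeval r A.leadingCoeff ^ (3 * D ^ 3) * aeval r B.leadingCoeff ^ (3 * D ^ 3) *
        ∑ i ∈ Finset.range (3 * D ^ 3 + 1), aeval r (P.coeff i) * Ψ ^ i = 0 := by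
  classical
  set E : ℕ := 3 * D ^ 3 with hE
  set d₁ := A.natDegree with hd₁
  set d₂ := B.natDegree with hd₂
  set α := aeval r A.leadingCoeff with hα
  set β := aeval r B.leadingCoeff with hβ
  -- monomials
  have hone : (1 : R) ∈ MM K r f g d₁ d₂ 0 := by
    have := mem_MM (K := K) (r := r) (f := f) (g := g) (d₁ := d₁) (d₂ := d₂) (k := 0) (b := 0) (i := 0) (j := 0)
      le_rfl (by omega) (by omega)
    simpa using this
  have hmon : ∀ a i j : ℕ, a ≤ E → i ≤ E → j ≤ E →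
      α ^ E * β ^ E * r ^ a * (f ^ i * g ^ j) ∈ MM K r f g d₁ d₂ (E + 2 * E * D) := by
    intro a i j ha hi hj
    have h1 := MM_rn a 0 1 hone
    have h2 := MM_pow (MM_f hd₁.symm hA hf) i _ _ h1
    have h3 := MM_pow (MM_g hd₂.symm hB hg) j _ _ h2
    have h4 := MM_pow (MM_poly (K := K) (hA A.natDegree)) (E - i) _ _ h3
    have h5 := MM_pow (MM_poly (K := K) (hB B.natDegree)) (E - j) _ _ h4
    have e1 : aeval r (B.coeff B.natDegree) ^ (E - j) * (aeval r (A.coeff A.natDegree) ^ (E - i) *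
        ((aeval r B.leadingCoeff * g) ^ j * ((aeval r A.leadingCoeff * f) ^ i * (r ^ a * 1)))) =
        α ^ E * β ^ E * r ^ a * (f ^ i * g ^ j) := by
      have e2 : aeval r (B.coeff B.natDegree) = β := rfl
      have e3 : aeval r (A.coeff A.natDegree) = α := rfl
      rw [e2, e3, ← hα, ← hβ]
      have e4 : α ^ E = α ^ (E - i) * α ^ i := by rw [← pow_add]; congr 1; omega
      have e5 : β ^ E = β ^ (E - j) * β ^ j := by rw [← pow_add]; congr 1; omega
      rw [e4, e5]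
      ring
    rw [e1] at h5
    refine MM_mono ?_ h5
    have e6 : i * D + (E - i) * D = E * D := by rw [← add_mul]; congr 1; omega
    have e7 : j * D + (E - j) * D = E * D := by rw [← add_mul]; congr 1; omega
    have e8 : 2 * E * D = E * D + E * D := by ring
    omega
  have hpsi : ∀ a l : ℕ, a ≤ E → l ≤ E → α ^ E * β ^ E * r ^ a * Ψ ^ l ∈ MM K r f g d₁ d₂ (E + 2 * E * D) := by
    intro a l ha hl
    rcases hΨ with rfl | rfl
    · rw [add_pow, Finset.mul_sum]
      refine Submodule.sum_mem _ fun m hm => ?_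
      have hm' := Finset.mem_range.1 hm
      have e1 : α ^ E * β ^ E * r ^ a * (f ^ m * g ^ (l - m) * ((l.choose m : ℕ) : R)) =
          (l.choose m) • (α ^ E * β ^ E * r ^ a * (f ^ m * g ^ (l - m))) := by
        rw [nsmul_eq_mul]; ring
      rw [e1]
      exact Submodule.smul_of_tower_mem _ _ (hmon a m (l - m) ha (by omega) (by omega))
    · rw [mul_pow]
      exact hmon a l l ha hl hl
  -- the relation
  set v : Fin (E + 1) × Fin (E + 1) → R := fun z => α ^ E * β ^ E * r ^ (z.1 : ℕ) * Ψ ^ (z.2 : ℕ) with hv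
  have hdep : ¬ LinearIndependent K v := by
    intro hind
    have h1 := linearIndependent_le_span_aux' v hind (gens r f g d₁ d₂ (E + 2 * E * D) : Set R) (by
      rintro _ ⟨z, rfl⟩
      exact hpsi z.1 z.2 (by omega) (by omega))
    have h2 : (gens r f g d₁ d₂ (E + 2 * E * D)).card ≤ (E + 2 * E * D + 1) * (d₁ * d₂) := by
      unfold gens
      refine Finset.card_image_le.trans (le_of_eq ?_)
      rw [Finset.card_product, Finset.card_product, Finset.card_range, Finset.card_range, Finset.card_range]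
    have h3 : d₁ * d₂ ≤ D * D := Nat.mul_le_mul hAD hBD
    have h4 : (E + 2 * E * D + 1) * (d₁ * d₂) ≤ (E + 2 * E * D + 1) * (D * D) := Nat.mul_le_mul_left _ h3
    have h5 : (E + 2 * E * D + 1) * (D * D) < (E + 1) * (E + 1) := by
      rw [hE]
      have e1 : D ^ 2 ≤ D ^ 3 := Nat.pow_le_pow_right hD (by norm_num)
      have e2 : D ^ 5 ≤ D ^ 6 := Nat.pow_le_pow_right hD (by norm_num)
      have e3 : (3 * D ^ 3 + 2 * (3 * D ^ 3) * D + 1) * (D * D) = 3 * D ^ 5 + 6 * D ^ 6 + D ^ 2 := by ring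
      have e4 : (3 * D ^ 3 + 1) * (3 * D ^ 3 + 1) = 9 * D ^ 6 + 6 * D ^ 3 + 1 := by ring
      rw [e3, e4]
      omega
    have h7 : (E + 1) * (E + 1) ≤ (gens r f g d₁ d₂ (E + 2 * E * D)).card := by
      have e1 : Fintype.card (Fin (E + 1) × Fin (E + 1)) = (E + 1) * (E + 1) := by
        rw [Fintype.card_prod, Fintype.card_fin]
      rw [e1] at h1
      refine h1.trans (le_of_eq ?_)
      simp
    omega
  rw [Fintype.not_linearIndependent_iff] at hdep
  obtain ⟨c, hc, ⟨a₀, l₀⟩, hc0⟩ := hdep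
  set c' : ℕ → ℕ → K := fun a l => if h : a < E + 1 ∧ l < E + 1 then c (⟨a, h.1⟩, ⟨l, h.2⟩) else 0 with hc'
  set P : K[X][X] := ∑ l ∈ Finset.range (E + 1), monomial l (∑ a ∈ Finset.range (E + 1), monomial a (c' a l)) with hP
  have hcoeff : ∀ i, P.coeff i = if i < E + 1 then ∑ a ∈ Finset.range (E + 1), monomial a (c' a i) else 0 := by
    intro i
    rw [hP, finsetSum_coeff]
    simp only [coeff_monomial]
    rw [Finset.sum_ite_eq']
    simp only [Finset.mem_range]
  refine ⟨P, ?_, ?_, ?_, ?_⟩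
  · intro h0
    have h1 := hcoeff l₀
    rw [h0, coeff_zero, if_pos l₀.2] at h1
    have h2 : (∑ a ∈ Finset.range (E + 1), monomial a (c' a l₀) : K[X]).coeff a₀ = c (a₀, l₀) := by
      rw [finsetSum_coeff]
      simp only [coeff_monomial]
      rw [Finset.sum_ite_eq', if_pos (Finset.mem_range.2 a₀.2)]
      simp only [hc']
      rw [dif_pos ⟨a₀.2, l₀.2⟩]
    rw [← h1, coeff_zero] at h2
    exact hc0 h2.symm
  · refine natDegree_le_iff_coeff_eq_zero.2 fun n hn => ?_
    rw [hcoeff, if_neg (by omega)]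
  · intro i
    rw [hcoeff]
    split_ifs
    · refine natDegree_sum_le_of_forall_le _ _ fun a ha => ?_
      refine (natDegree_monomial_le _).trans ?_
      have := Finset.mem_range.1 ha
      omega
    · simp
  · have e1 : ∀ i ∈ Finset.range (E + 1), aeval r (P.coeff i) * Ψ ^ i =
        ∑ a ∈ Finset.range (E + 1), c' a i • (r ^ a * Ψ ^ i) := by
      intro i hi
      rw [hcoeff, if_pos (Finset.mem_range.1 hi), map_sum, Finset.sum_mul]
      refine Finset.sum_congr rfl fun a _ => ?_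
      rw [aeval_monomial, Algebra.smul_def]
      ring
    rw [Finset.sum_congr rfl e1, Finset.mul_sum]
    rw [Fintype.sum_prod_type_right] at hc
    rw [← Fin.sum_univ_eq_sum_range (fun i => α ^ E * β ^ E * ∑ a ∈ Finset.range (E + 1), c' a i • (r ^ a * Ψ ^ i))]
    rw [← hc]
    refine Finset.sum_congr rfl fun l _ => ?_
    rw [← Fin.sum_univ_eq_sum_range (fun a => c' a l • (r ^ a * Ψ ^ (l : ℕ))), Finset.mul_sum]
    refine Finset.sum_congr rfl fun a _ => ?_
    have e2 : c' a l = c (a, l) := by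
      simp only [hc']
      rw [dif_pos ⟨a.2, l.2⟩]
    rw [e2, mul_smul_comm]
    simp only [hv]
    congr 1
    ring

theorem alg_const {D : ℕ} {J : Set ℝ} {A : ℂ[X][X]} (hA0 : A ≠ 0) (hd : A.natDegree = 0) (hc : ∀ i, (A.coeff i).natDegree ≤ D)
    {f : ℝ → ℂ} (hf : ∀ u ∈ J, (A.map (Polynomial.evalRingHom (Real.exp u : ℂ))).eval (f u) = 0) (h : ℝ → ℂ) :
    Alg D J h := by
  refine ⟨A, hA0, by omega, hc, fun u hu => ?_⟩
  have h1 := hf u hu
  rw [eq_C_of_natDegree_eq_zero hd] at h1 ⊢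
  simpa using h1

theorem alg_mono {D D' : ℕ} (h : D ≤ D') {J : Set ℝ} {f : ℝ → ℂ} (hf : Alg D J f) : Alg D' J f := by
  obtain ⟨A, h1, h2, h3, h4⟩ := hf
  exact ⟨A, h1, h2.trans h, fun i => (h3 i).trans h, h4⟩

theorem alg_op {D : ℕ} {J : Set ℝ} {f g Ψ : ℝ → ℂ} (hD : 1 ≤ D) (hf : Alg D J f) (hg : Alg D J g)
    (hΨ : (∀ u, Ψ u = f u + g u) ∨ (∀ u, Ψ u = f u * g u)) : Alg (5 * D ^ 3) J Ψ := by
  have hD3 : D ≤ D ^ 3 := Nat.le_self_pow (by norm_num) D
  obtain ⟨A, hA0, hAD, hA, hAf⟩ := hf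
  obtain ⟨B, hB0, hBD, hB, hBg⟩ := hg
  rcases Nat.eq_zero_or_pos A.natDegree with h | hA1
  · exact alg_mono (by omega) (alg_const hA0 h hA hAf Ψ)
  rcases Nat.eq_zero_or_pos B.natDegree with h | hB1
  · exact alg_mono (by omega) (alg_const hB0 h hB hBg Ψ)
  set r' : J → ℂ := fun u => (Real.exp u : ℂ) with hr'
  have hev : ∀ (P : ℂ[X][X]) (n : ℕ) (hn : P.natDegree < n) (h : ℝ → ℂ) (u : J),
      (P.map (Polynomial.evalRingHom (Real.exp u : ℂ))).eval (h u) =
        (∑ i ∈ Finset.range n, aeval r' (P.coeff i) * (fun u : J => h u) ^ i) u := by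
    intro P n hn h u
    rw [eval_map, eval₂_eq_sum_range' _ hn, Finset.sum_apply]
    refine Finset.sum_congr rfl fun i _ => ?_
    rw [Pi.mul_apply, Pi.pow_apply]
    congr 1
    have e1 : aeval r' (P.coeff i) u = aeval (r' u) (P.coeff i) := by
      rw [aeval_fn_apply]
    rw [e1, coe_aeval_eq_eval, coe_evalRingHom]
  have hf' : ∑ i ∈ Finset.range (A.natDegree + 1), aeval r' (A.coeff i) * (fun u : J => f u) ^ i = 0 := by
    funext u
    rw [← hev A _ (Nat.lt_succ_self _) f u]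
    exact hAf u u.2
  have hg' : ∑ i ∈ Finset.range (B.natDegree + 1), aeval r' (B.coeff i) * (fun u : J => g u) ^ i = 0 := by
    funext u
    rw [← hev B _ (Nat.lt_succ_self _) g u]
    exact hBg u u.2
  have hΨ' : (fun u : J => Ψ u) = (fun u : J => f u) + (fun u : J => g u) ∨
      (fun u : J => Ψ u) = (fun u : J => f u) * (fun u : J => g u) := by
    rcases hΨ with h | h
    · left; funext u; exact h u
    · right; funext u; exact h u
  obtain ⟨P, hP0, hPd, hPc, hP⟩ := count hD hA1 hAD hA hB1 hBD hB hf' hg' hΨ'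
  refine ⟨C (A.leadingCoeff * B.leadingCoeff) * P, ?_, ?_, ?_, ?_⟩
  · refine mul_ne_zero ?_ hP0
    rw [Ne, C_eq_zero]
    exact mul_ne_zero (leadingCoeff_ne_zero.2 hA0) (leadingCoeff_ne_zero.2 hB0)
  · refine (natDegree_C_mul_le _ _).trans (hPd.trans ?_)
    omega
  · intro i
    rw [coeff_C_mul]
    refine natDegree_mul_le.trans ?_
    have h1 : (A.leadingCoeff * B.leadingCoeff).natDegree ≤ D + D :=
      natDegree_mul_le.trans (add_le_add (hA _) (hB _))
    have h2 := hPc i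
    omega
  · intro u hu
    have h1 := congrFun hP ⟨u, hu⟩
    rw [Pi.mul_apply, Pi.mul_apply, Pi.pow_apply, Pi.pow_apply, Pi.zero_apply,
      ← hev P _ (Nat.lt_succ_of_le hPd) Ψ ⟨u, hu⟩] at h1
    have e1 : ∀ p : ℂ[X], aeval r' p ⟨u, hu⟩ = p.eval (Real.exp u : ℂ) := by
      intro p
      have : aeval r' p ⟨u, hu⟩ = aeval (r' ⟨u, hu⟩) p := by rw [aeval_fn_apply]
      rw [this, coe_aeval_eq_eval]
    rw [e1, e1] at h1
    rw [Polynomial.map_mul, Polynomial.map_C, eval_mul, eval_C, coe_evalRingHom, eval_mul]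
    rcases mul_eq_zero.1 h1 with h | h
    · rcases mul_eq_zero.1 h with h | h
      · rw [eq_zero_of_pow_eq_zero h]; ring
      · rw [eq_zero_of_pow_eq_zero h]; ring
    · rw [h, mul_zero]

theorem t_D1 : S_D1 := fun _ _ _ _ hD hf hg =>
  ⟨alg_op hD hf hg (Or.inl fun _ => rfl), alg_op hD hf hg (Or.inr fun _ => rfl)⟩

end Pool.Agent.Q111.UM
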